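import Pool.Agent.Helper85.FRM.St

/-! [FAMP] of helper85: a finite family of extensions of a finite space has a common extension in which the members
are independent over the space; leaks of the join are subadditive, the information of the join is at least that of
each member. -/

set_option autoImplicit false

namespace Pool.Agent.Helper93.FRM

open Finset Pool.Agent.Helper69.RK Pool.Agent.Helper31.EC Pool.Agent.Helper40.EL Pool.Agent.Helper85.FRM

noncomputable section

/-- the identity of a finite space -/
def idp (F : FSp) : FPj F F := (FLab.triv F).p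

theorem famp : FAMP := by
  intro F N
  induction N with
  | zero =>
    intro L
    refine ⟨F, idp F, rfl, fun a => a.elim0, fun a => a.elim0, ?_⟩
    intro W V hV
    refine ⟨?_, fun a => a.elim0⟩
    intro x
    have h1 : V = ⊤ := by
      ext w w'
      exact ⟨fun _ => trivial, fun _ => (hV w w').2 fun a => a.elim0⟩
    subst h1
    have h2 : (FLab.mk F (idp F) rfl ⊤).leak x = 0 := FLab.triv_leak x
    rw [h2]
    simp
  | succ N ih =>
    intro L
    obtain ⟨U', p', hn', q', hs', hl'⟩ := ih fun a => L a.succ
    let l' : FLab F := ⟨U', p', hn', ⊤⟩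
    let A := (L 0).am l'
    have hsup : ∀ w, A.sp.μ w ≠ 0 → (L 0).p.π (A.p1.π w) = p'.π (A.p2.π w) ∧ U'.μ (A.p2.π w) ≠ 0 := by
      intro w hw
      exact ⟨(A.supp w hw).1, (A.supp w hw).2.2⟩
    refine ⟨A.sp, A.p1.comp (L 0).p, (L 0).hn, Fin.cases A.p1 fun a => A.p2.comp (q' a), ?_, ?_⟩
    · intro a w hw
      refine Fin.cases ?_ (fun b => ?_) a
      · rfl
      · obtain ⟨h1, h2⟩ := hsup w hw
        have h3 := hs' b (A.p2.π w) h2
        exact h3.trans h1.symm
    · intro W V hV
      let V' : Setoid U'.Ω := ⟨fun u u' => ∀ a, W (Fin.succ a) ((q' a).π u) ((q' a).π u'),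
        fun u a => (W (Fin.succ a)).refl _, fun h a => (W (Fin.succ a)).symm (h a),
        fun h h' a => (W (Fin.succ a)).trans (h a) (h' a)⟩
      have hV' : ∀ u u', V' u u' ↔ ∀ a, W (Fin.succ a) ((q' a).π u) ((q' a).π u') := fun u u' => Iff.rfl
      obtain ⟨h1, h2⟩ := hl' (fun a => W a.succ) V' hV'
      have hVe : V = Setoid.comap A.p1.π (W 0) ⊓ Setoid.comap A.p2.π V' := by
        ext w w'
        rw [hV]
        constructor
        · intro h
          exact ⟨h 0, fun a => h a.succ⟩
        · intro h a
          refine Fin.cases h.1 (fun b => ?_) a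
          exact h.2 b
      subst hVe
      have e : (FLab.mk A.sp (A.p1.comp (L 0).p) (L 0).hn (Setoid.comap A.p1.π (W 0) ⊓ Setoid.comap A.p2.π V')) =
          (FLab.mk (L 0).T (L 0).p (L 0).hn (W 0)).join (FLab.mk U' p' hn' V') := rfl
      rw [e]
      constructor
      · intro x
        rw [Fin.sum_univ_succ]
        exact (FLab.join_leak _ _ x).trans (by have := h1 x; linarith)
      · intro a
        refine Fin.cases ?_ (fun b => ?_) a
        · exact FLab.join_info_ge_left _ _
        · exact (h2 b).trans (FLab.join_info_ge_right _ _)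

end

end Pool.Agent.Helper93.FRM
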