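import Pool.Agent.Helper49.KL.Lit
import Pool.Agent.Helper33.LIT.Frm
import Pool.Agent.Helper89.RAK.Zom

/-! Frames of maximal K-labels: the label with its frame can be taken literal (a partition of the space itself, a
function of `R` and the base). -/

set_option autoImplicit false

namespace Pool.Agent.Helper93.FRM

open Finset Filter Topology Pool.Agent.Helper69.RK Pool.Agent.Helper31.EC Pool.Agent.Helper31.EC.Sp
open Pool.Agent.Helper40.EL Pool.Agent.Helper84.MT Pool.Agent.Helper36.AM Pool.Agent.Helper33.LIT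
open Pool.Agent.Helper89.RAK (KC DMK IsKapK)

noncomputable section

variable {S : Sp} {M : ℕ} {E : ℕ → ℕ} {ι : Type}

/-- LITERAL SECTION of a maximal K-label, together with a function whose mean on the label is null -/
theorem kapK_sec [Finite ι] {s : MSys S M E ι} {R : ∀ k, Setoid (S.F k).Ω} {c : ℝ} {l : Lab S}
    (hl : IsKapK s R c l) (b : ∀ k, (l k).T.Ω → ℝ) (hb0 : ∀ k τ, 0 ≤ b k τ)
    (hb : Tendsto (fun k => ∑ τ, (l k).T.μ τ * b k τ) UF (𝓝 0)) :
    ∃ σ : Sec l, (∀ᶠ k in UF, R k ⊓ (S.F k).Z ≤ σ.Z k) ∧ IsKapK s R c (Lab.ofZ σ.Z) ∧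
      Tendsto (fun k => ∑ x, (S.F k).μ x * b k (σ.f k x)) UF (𝓝 0) :=
  Pool.Agent.Helper49.KL.exists_secK (A := s.cnd c) hl (i₀ := none) (pcd_Bd s.Q) b hb0 hb

/-- THE LITERAL LABEL WITH A FRAME -/
theorem frm_litK [Finite ι] {s : MSys S M E ι} {R : ∀ k, Setoid (S.F k).Ω} {c : ℝ} {l : Lab S}
    (hl : IsKapK s R c l) {La : Fin M → ℝ} (f : Frm s.Q l La) :
    ∃ (Z : ∀ k, Setoid (S.F k).Ω) (_ : Frm s.Q (Lab.ofZ Z) La), (∀ᶠ k in UF, R k ⊓ (S.F k).Z ≤ Z k) ∧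
      IsKapK s R c (Lab.ofZ Z) := by
  obtain ⟨σ, h1, h2, -⟩ := kapK_sec hl (fun _ _ => 0) (fun _ _ => le_rfl) (by
    simp only [mul_zero, Finset.sum_const_zero]
    exact tendsto_const_nhds)
  exact ⟨σ.Z, σ.frm f, h1, h2⟩

end

end Pool.Agent.Helper93.FRM
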